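import Pool.Agent.Y885.LF7

/-!
# Prime tuplets for the forms `r_j q + a_j`, uniformly in all coefficients `r_j ≤ log ^ κ x` and in windows of constants,
after a change of the constants by very few elements of arbitrary sets which meet every interval `[y, l y]`

`Pool.Agent.Y885.wN r a p`: the number of the `q < p` for which `p` divides `∏ j, (r j * q + a j)` (the `w(p)` of the
problem if all `a j = 1`).
-/

set_option autoImplicit false

namespace Pool.Agent.Results.MP_d018b2_nt.ElementsOfAnySets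

open Finset
open Pool.Agent.Y885 (wN)

/-- the product of the factors `(1 - w(p) / p) / (1 - 1 / p) ^ ℓ` over the primes `p ≤ z` -/
noncomputable def P {ℓ : ℕ} (r a : Fin ℓ → ℕ) (z : ℕ) : ℝ :=
  ∏ p ∈ (Icc 1 z).filter Nat.Prime, (1 - (wN r a p : ℝ) / p) / (1 - 1 / (p : ℝ)) ^ ℓ

/-- the number of the `q` in `[x, 2x)` for which all `r j * q + a j` are primes -/
def N {ℓ : ℕ} (r a : Fin ℓ → ℕ) (x : ℕ) : ℕ := ((Ico x (2 * x)).filter (fun q => ∀ j, (r j * q + a j).Prime)).card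

/-- The asymptotic formula of the problem for the forms `r j * q + a j`: the singular product converges, its value `S`
gives the sum of the products of the von Mangoldt functions over `x ≤ q < 2x` with an error of at most `x / log ^ U x`,
and, if `w(p) < p` for all primes `p`, then `S > 0` and the number `N r a x` of the `q` is `S x / log ^ ℓ x` with a
relative error of at most `ε`. -/
def Holds {ℓ : ℕ} (ε : ℝ) (U x : ℕ) (r a : Fin ℓ → ℕ) : Prop :=
  ∃ S : ℝ, Filter.Tendsto (fun z => P r a z) Filter.atTop (nhds S) ∧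
    |∑ q ∈ Ico x (2 * x), ∏ j, ArithmeticFunction.vonMangoldt (r j * q + a j) - S * x| ≤ x / Real.log x ^ U ∧
    ((∀ p : ℕ, p.Prime → wN r a p < p) → 0 < S ∧
      |(N r a x : ℝ) - S * (x / Real.log x ^ ℓ)| ≤ ε * (S * (x / Real.log x ^ ℓ)))

/-- For all `ℓ ≥ 1`, `l ≥ 2`, `κ`, `R₀`, `U` there is a constant `C` such that for all `H`, `B` and `ε > 0` there is an
`x₀` with the following property. Let `A j`, `j < ℓ`, be arbitrary sets of integers each of which contains an element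
of every interval `[y, l y]`, `y ≥ 1` (the constants `C` and `x₀` do not depend on these sets). Let `x ≥ x₀` and let
`0 ≤ h j ≤ B x` be arbitrary integers. Then there are sets `S j` of at most `C (log log x) ^ 2` elements of `A j`, all
between `log ^ H x` and `x / log ^ H x`, such that, for `a j = h j + ∑ S j`, the asymptotic formula holds for the forms
`r j * q + a j + e j` for ALL coefficients `1 ≤ r j ≤ log ^ κ x` and all `0 ≤ e j ≤ log ^ κ x`. If all `r j ≤ R₀` and
`w(p) < p` for all primes `p` for the forms `r j * q + h j + e j`, then the same holds for the forms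
`r j * q + a j + e j`. (The forms of the problem have `h j = 0`, `e j = 1`, `S j = ∅`.) -/
theorem result (ℓ l κ R₀ U : ℕ) (hℓ : 1 ≤ ℓ) (hl : 2 ≤ l) : ∃ C : ℝ, ∀ (H B : ℕ) (ε : ℝ), 0 < ε → ∃ x₀ : ℕ,
    ∀ A : Fin ℓ → Set ℕ, (∀ j, ∀ y : ℕ, 1 ≤ y → ∃ a ∈ A j, y ≤ a ∧ a ≤ l * y) →
      ∀ x : ℕ, x₀ ≤ x → ∀ h : Fin ℓ → ℕ, (∀ j, h j ≤ B * x) →
        ∃ S : Fin ℓ → Finset ℕ,
          (∀ j, ∀ a ∈ S j, a ∈ A j ∧ Real.log x ^ H ≤ a ∧ (a : ℝ) ≤ x / Real.log x ^ H) ∧
          (∀ j, ((S j).card : ℝ) ≤ C * Real.log (Real.log x) ^ 2) ∧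
          (∀ r e : Fin ℓ → ℕ, (∀ j, 1 ≤ r j ∧ (r j : ℝ) ≤ Real.log x ^ κ ∧ (e j : ℝ) ≤ Real.log x ^ κ) →
            Holds ε U x r (fun j => h j + ∑ a ∈ S j, a + e j)) ∧
          ∀ r e : Fin ℓ → ℕ, (∀ j, 1 ≤ r j ∧ r j ≤ R₀) → (∀ p : ℕ, p.Prime → wN r (fun j => h j + e j) p < p) →
            ∀ p : ℕ, p.Prime → wN r (fun j => h j + ∑ a ∈ S j, a + e j) p < p := by
  obtain ⟨C, hC⟩ := Pool.Agent.Y885.las_formsW ℓ l κ R₀ U hℓ hl
  refine ⟨C, fun H B ε hε => ?_⟩
  obtain ⟨x₀, h0⟩ := hC H B ε hε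
  refine ⟨x₀, fun A hA x hx h hh => ?_⟩
  obtain ⟨S, h1, h2, h3, h4⟩ := h0 A hA x hx h hh
  exact ⟨S, h1, h2, fun r e hr => h3 r e hr, h4⟩

end Pool.Agent.Results.MP_d018b2_nt.ElementsOfAnySets
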