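import Mathlib
import Pool.Agent.Y840.PT.Avg

set_option autoImplicit false

/-!
# Long narrow progressions of the `q` for which all `q r_j + 1` are prime

`w T p`, `S T` are the `w(p)` and the singular product of the problem for the set `T` of the `r_j`, and
`Q x T` is the set of the `x ≤ q < 2 x` for which all `q r + 1`, `r ∈ T`, are prime; `N(x)` is its
number of elements.

For every set `A` of integers `r ≤ (log x) ^ C` with `∑ r / φ(r) ≥ lam log x`, `lam > l - 1`, the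
`l`-element subsets `T` of `A` for which `N(x)` has at least the predicted order and EVERY subset of
`Q x T` of relative density `ρ` contains `m`-term progressions with difference at most `(log x) ^ B`
carry a positive proportion of the sum of all `S T`.
-/

namespace Pool.Agent.Results.MP_d018b2_nt.NarrowProgressions

open Finset

/-- the number of residue classes `q mod p` with `p ∣ ∏ (q r + 1)` -/
def w (T : Finset ℕ) (p : ℕ) : ℕ := ((range p).filter (fun q => p ∣ ∏ r ∈ T, (q * r + 1))).card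

/-- the singular product of the forms `q r + 1`, `r ∈ T` -/
noncomputable def S (T : Finset ℕ) : ℝ :=
  ∏' p : Nat.Primes, (1 - (w T p : ℝ) / ((p : ℕ) : ℝ)) / (1 - 1 / ((p : ℕ) : ℝ)) ^ T.card

/-- the integers `x ≤ q < 2x` with all `q r + 1`, `r ∈ T`, prime -/
def Q (x : ℕ) (T : Finset ℕ) : Finset ℕ :=
  (Ico x (2 * x)).filter (fun q => ∀ r ∈ T, (q * r + 1).Prime)

/-- `U` contains `m` consecutive terms of an arithmetic progression with difference between `1`
and `D` -/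
def HasAP (m : ℕ) (D : ℝ) (U : Finset ℕ) : Prop :=
  ∃ a d : ℕ, 1 ≤ d ∧ (d : ℝ) ≤ D ∧ ∀ j < m, a + j * d ∈ U

open Classical in
/-- The singular products converge.  For all `k` and `lam > k` there are `c, δ > 0` such that for all
`C ≥ 0`, `m` and `ρ > 0` there are `B` and `x₀` such that for all `x ≥ x₀` and all sets `A` of positive
integers `r ≤ (log x) ^ C` with `∑ r / φ(r) ≥ lam log x`: the `(k + 1)`-element subsets `T` of `A` with
`S T > 0`, with at least `δ (S T) x / (log x) ^ (k + 1)` elements of `Q x T`, and such that every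
`U ⊆ Q x T` of at least `ρ (Q x T).card` elements contains `m`-term progressions of difference
`≤ (log x) ^ B`, carry at least the proportion `c` of the sum of the `S T` over all `(k + 1)`-element
subsets of `A`; and that sum is at least `κ (A.card) ^ (k + 1)` if `A` has at least `lam log x`
elements, `κ > 0` depends on `k` only. -/
theorem result :
    (∀ T : Finset ℕ, (∀ r ∈ T, 1 ≤ r) → HasProd (fun p : Nat.Primes =>
      (1 - (w T p : ℝ) / ((p : ℕ) : ℝ)) / (1 - 1 / ((p : ℕ) : ℝ)) ^ T.card) (S T)) ∧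
    (∀ (k : ℕ) (lam : ℝ), (k : ℝ) < lam → ∃ c δ : ℝ, 0 < c ∧ 0 < δ ∧
      ∀ (C : ℝ) (m : ℕ) (ρ : ℝ), 0 ≤ C → 0 < ρ → ∃ B x₀ : ℕ, ∀ x : ℕ, x₀ ≤ x →
      ∀ A : Finset ℕ, (∀ r ∈ A, 1 ≤ r ∧ (r : ℝ) ≤ Real.log x ^ C) →
      lam * Real.log x ≤ ∑ r ∈ A, (r : ℝ) / Nat.totient r →
      c * ∑ T ∈ A.powersetCard (k + 1), S T ≤
        ∑ T ∈ (A.powersetCard (k + 1)).filter (fun T => 0 < S T ∧
          δ * (S T * (x / Real.log x ^ (k + 1))) ≤ ((Q x T).card : ℝ) ∧
          ∀ U ⊆ Q x T, ρ * ((Q x T).card : ℝ) ≤ (U.card : ℝ) → HasAP m (Real.log x ^ B) U), S T) ∧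
    (∀ k : ℕ, ∃ κ : ℝ, 0 < κ ∧ ∀ lam C : ℝ, (k : ℝ) < lam → 0 ≤ C → ∃ x₀ : ℕ, ∀ x : ℕ, x₀ ≤ x →
      ∀ A : Finset ℕ, (∀ r ∈ A, 1 ≤ r ∧ (r : ℝ) ≤ Real.log x ^ C) → lam * Real.log x ≤ A.card →
      κ * (A.card : ℝ) ^ (k + 1) ≤ ∑ T ∈ A.powersetCard (k + 1), S T) := by
  refine ⟨fun _ hT => Pool.Agent.W218.MU.SD_hasProd hT, ?_, ?_⟩
  · intro k lam hlam
    obtain ⟨c, δ, hc, hδ, h⟩ := Pool.Agent.Y840.PT.dil_avg k lam hlam
    refine ⟨c, δ, hc, hδ, fun C m ρ hC hρ => ?_⟩
    obtain ⟨B, x₀, h2⟩ := h C m ρ hC hρ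
    refine ⟨B, x₀, fun x hx A hA hs => ?_⟩
    refine (h2 x hx A hA hs).trans (le_of_eq ?_)
    have e : ∀ T, Pool.Agent.Y840.PT.QD x T = Q x T := by
      intro T
      unfold Pool.Agent.Y840.PT.QD Q
      congr!
    simp only [e]
    rfl
  · intro k
    obtain ⟨κ, hκ, h⟩ := Pool.Agent.W218.MU.dilMain k
    refine ⟨κ, hκ, fun lam C hlam hC => ?_⟩
    have hlam0 : 0 < lam := lt_of_le_of_lt (Nat.cast_nonneg k) hlam
    have hP : 0 < ∏ i ∈ range k, (1 - (i + 1 : ℝ) / lam) := by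
      apply prod_pos
      intro i hi
      have hi' : (i + 1 : ℝ) ≤ k := by exact_mod_cast mem_range.1 hi
      rw [sub_pos, div_lt_one hlam0]
      linarith
    obtain ⟨x₀, h2⟩ := h lam 0 C hlam hC hP
    exact ⟨x₀, fun x hx A hA hc => (h2 x hx A hA).2 hc⟩

end Pool.Agent.Results.MP_d018b2_nt.NarrowProgressions
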