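import Pool.Agent.Y816.PD.UniL

set_option autoImplicit false

/-!
# The forms `q m + 1`, `m ∈ s`, at integers `q` with restricted digits, uniformly in `s`

The integers `q < b ^ K` whose `i`-th digit in base `b` belongs to an arbitrary set `A i` (for all `i < K`) are
considered, the product of the `|A i|` being at least `exp (- c K) b ^ K`. Everything is uniform in the set `s` of
`ℓ` positive integers `≤ b ^ K`.
-/

namespace Pool.Agent.Results.MP_d018b2_nt.RestrictedDigits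

open Finset Filter Polynomial
open Pool.Agent.Y816.PD (ND NA Alm Rgh WG)

/-- The product of the `q m + 1`. -/
def G (s : Finset ℕ) (q : ℕ) : ℤ := ∏ m ∈ s, ((q : ℤ) * m + 1)

lemma G_eq (s : Finset ℕ) (q : ℕ) : G s q = ((∏ m ∈ s, (q * m + 1) : ℕ) : ℤ) := by
  unfold G
  push_cast
  rfl

lemma adm (s : Finset ℕ) (p : ℕ) (hp : p.Prime) : ∃ q : ℕ, ¬ (p : ℤ) ∣ G s q := by
  refine ⟨0, fun h => ?_⟩
  have h1 : G s 0 = ((1 : ℕ) : ℤ) := by
    unfold G
    simp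
  rw [h1, Int.natCast_dvd_natCast] at h
  exact hp.one_lt.ne' (Nat.dvd_one.1 h)

/-- **Almost primes `q m + 1`, `m ∈ s`, with restricted digits of `q`, uniformly in `s`.** -/
theorem result (ℓ : ℕ) (hℓ : 1 ≤ ℓ) :
    ∃ c : ℝ, 0 < c ∧ ∃ r₀ : ℕ, 2 ≤ r₀ ∧ ∀ r : ℕ, r₀ ≤ r →
      (∀ (s : Finset ℕ) (q : ℕ), (∀ m ∈ s, 0 < m ∧ (q * m + 1).Prime) → q ∈ Rgh (G s) r) ∧
      ∀ b : ℕ, 2 ≤ b → ∃ κ C : ℝ, 0 < κ ∧ 0 < C ∧ ∀ᶠ K : ℕ in atTop,
        ∀ s : Finset ℕ, s.card = ℓ → (∀ m ∈ s, 0 < m ∧ m ≤ b ^ K) → ∀ A : ℕ → Finset ℕ,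
        (∀ i < K, A i ⊆ range b) → (b : ℝ) ^ K ≤ Real.exp (c * K) * NA K A →
        ((∃ d ∈ A 0, ∀ m ∈ s, (d * m + 1).Coprime b) →
          κ * NA K A * WG (G s) (b ^ K) ≤ ND b K A (Alm (G s) r (b ^ K))) ∧
        (ND b K A (Rgh (G s) r) : ℝ) ≤ C * NA K A * WG (G s) (b ^ K) := by
  obtain ⟨c, hc, r₀, hr₀, h⟩ := Pool.Agent.Y816.PD.uni_fun ℓ (3 * ℓ) hℓ
  refine ⟨c, hc, r₀, hr₀, fun r hr => ⟨fun s q hs p hp hd => ?_, fun b hb => ?_⟩⟩
  · have h2r : 2 ≤ r := hr₀.trans hr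
    rw [G_eq, Int.natCast_dvd_natCast] at hd
    obtain ⟨m, hm, hd⟩ := (Prime.dvd_finsetProd_iff hp.prime _).1 hd
    refine Pool.Agent.Y816.PD.lt_pow_of_le hp ?_ h2r
    rw [(Nat.prime_dvd_prime_iff_eq hp (hs m hm).2).1 hd]
    have := (hs m hm).1
    nlinarith
  · obtain ⟨κ, C₁, hκ, hC, h1⟩ := h r hr b hb
    refine ⟨κ, C₁, hκ, hC, ?_⟩
    filter_upwards [h1, eventually_ge_atTop 1] with K hK hK1 s hs hsb A hA hprod
    have hpoly : ∃ P : ℤ[X], P.natDegree ≤ ℓ ∧ ∀ q : ℕ, P.eval (q : ℤ) = G s q := by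
      refine ⟨∏ m ∈ s, (X * C ((m : ℕ) : ℤ) + 1), ?_, fun q => ?_⟩
      · refine (natDegree_prod_le _ _).trans ?_
        rw [← hs, Finset.card_eq_sum_ones]
        apply Finset.sum_le_sum
        intro m _
        compute_degree
      · unfold G
        rw [eval_prod]
        apply Finset.prod_congr rfl
        intro m _
        simp
    have hsize : ∀ q : ℕ, q < b ^ K → (G s q).natAbs ≤ b ^ (3 * ℓ * K) := by
      intro q hq
      rw [G_eq, Int.natAbs_natCast]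
      have e1 : b ^ (3 * ℓ * K) = ∏ m ∈ s, b ^ (3 * K) := by
        rw [prod_const, hs, ← pow_mul]
        congr 1
        ring
      rw [e1]
      apply Finset.prod_le_prod (fun _ _ => Nat.zero_le _)
      intro m hm
      have h2 := (hsb m hm).2
      have e2 : b ^ (3 * K) = b ^ K * b ^ K * b ^ K := by
        rw [← pow_add, ← pow_add]
        congr 1
        ring
      have h3 : 2 ≤ b ^ K := hb.trans (Nat.le_self_pow (by omega) b)
      rw [e2]
      have h4 : q * m ≤ b ^ K * b ^ K := Nat.mul_le_mul hq.le h2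
      have h5 : 1 ≤ b ^ K * b ^ K := Nat.mul_pos (by omega) (by omega)
      calc q * m + 1 ≤ b ^ K * b ^ K + b ^ K * b ^ K := Nat.add_le_add h4 h5
        _ = b ^ K * b ^ K * 2 := by ring
        _ ≤ b ^ K * b ^ K * b ^ K := Nat.mul_le_mul_left _ h3
    obtain ⟨h2, h3⟩ := hK (G s) hpoly (adm s) hsize A hA hprod
    refine ⟨fun he => h2 ?_, h3⟩
    obtain ⟨e, he1, he2⟩ := he
    refine ⟨e, he1, ?_⟩
    rw [G_eq, Int.natAbs_natCast]
    exact Nat.Coprime.prod_left fun m hm => he2 m hm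

end Pool.Agent.Results.MP_d018b2_nt.RestrictedDigits
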