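import Mathlib
import Pool.Agent.Y840.PT.Alm

set_option autoImplicit false

/-!
# Szemerédi's theorem for almost primes `q r_j + 1`, uniformly in the `r_j`

For all sets `T` of `l` positive integers without local obstruction (of ANY size): (1) the
`q ∈ [x, 2x)` such that no `q r + 1`, `r ∈ T`, has a prime factor `≤ x ^ κ` contain progressions of `m`
terms with difference `≤ (log x) ^ B`, where `κ` depends on `l` only; if all `r ≤ x ^ C` then all
`q r + 1` have at most `(C + 2) / κ` prime factors; (2) for every `κ > 0` the same holds for every set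
of at least `ρ S T x / (log x) ^ l` such `q`. The constants `B` and `x₀` do not depend on `T`.
-/

namespace Pool.Agent.Results.MP_d018b2_nt.UniformAlmostPrimes

open Finset

/-- the number of residue classes `q mod p` with `p ∣ ∏ (q r + 1)` -/
def w (T : Finset ℕ) (p : ℕ) : ℕ := ((range p).filter (fun q => p ∣ ∏ r ∈ T, (q * r + 1))).card

/-- the singular product of the forms `q r + 1`, `r ∈ T` -/
noncomputable def S (T : Finset ℕ) : ℝ :=
  ∏' p : Nat.Primes, (1 - (w T p : ℝ) / ((p : ℕ) : ℝ)) / (1 - 1 / ((p : ℕ) : ℝ)) ^ T.card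

/-- `q` is such that all prime factors of all `q r + 1`, `r ∈ T`, are larger than `z` -/
def Free (T : Finset ℕ) (z : ℝ) (q : ℕ) : Prop :=
  ∀ r ∈ T, ∀ p : ℕ, p.Prime → p ∣ q * r + 1 → z < p

/-- number of prime factors of an integer without small prime factors -/
lemma few_factors {n x : ℕ} {κ : ℝ} {C : ℕ} (hx : 2 ≤ x) (hn0 : n ≠ 0) (hn : n ≤ x ^ (C + 2))
    (h : ∀ p : ℕ, p.Prime → p ∣ n → (x : ℝ) ^ κ < p) :
    κ * (n.primeFactorsList.length : ℝ) ≤ C + 2 := by
  have hx1 : (1 : ℝ) < x := by exact_mod_cast (by omega : 1 < x)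
  have hx0 : (0 : ℝ) < x := by linarith
  have h1 : ((x : ℝ) ^ κ) ^ n.primeFactorsList.length ≤ n := by
    have h2 : ∀ L : List ℕ, (∀ p ∈ L, (x : ℝ) ^ κ ≤ p) → ((x : ℝ) ^ κ) ^ L.length ≤ (L.prod : ℕ) := by
      intro L
      induction L with
      | nil => intro _; simp
      | cons a L ih =>
        intro hL
        have i1 := ih (fun p hp => hL p (List.mem_cons_of_mem _ hp))
        have i2 := hL a List.mem_cons_self
        have i3 : (0 : ℝ) ≤ (x : ℝ) ^ κ := by positivity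
        rw [List.length_cons, pow_succ, List.prod_cons, Nat.cast_mul, mul_comm]
        exact mul_le_mul i2 i1 (by positivity) (Nat.cast_nonneg _)
    have h3 := h2 n.primeFactorsList (fun p hp =>
      (h p (Nat.prime_of_mem_primeFactorsList hp) (Nat.dvd_of_mem_primeFactorsList hp)).le)
    rwa [Nat.prod_primeFactorsList hn0] at h3
  have h4 : ((x : ℝ) ^ κ) ^ n.primeFactorsList.length ≤ (x : ℝ) ^ (C + 2 : ℕ) := by
    refine h1.trans ?_
    exact_mod_cast hn
  rw [← Real.rpow_natCast, ← Real.rpow_natCast, ← Real.rpow_mul hx0.le] at h4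
  have h5 := (Real.rpow_le_rpow_left_iff hx1).1 h4
  push_cast at h5
  exact h5

/-- The singular products converge, and `S T > 0` if and only if `w(p) < p` for all `p`.
(1) For every `l` there is `κ > 0` such that for every `m` there are `B` and `x₀` such that for
all `x ≥ x₀` and all sets `T` of `l` positive integers with `S T > 0` there are `a` and
`1 ≤ d ≤ (log x) ^ B` such that the `m` integers `q = a + j d`, `j < m`, are in `[x, 2x)` and all
prime factors of all `q r + 1` are `> x ^ κ`; if moreover all `r ≤ x ^ C` then all `q r + 1` have at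
most `(C + 2) / κ` prime factors (with multiplicity).  (2) For all `l`, `m` and `κ, ρ > 0` there are
`B` and `x₀` such that for all `x ≥ x₀` and all sets `T` of `l` positive integers with `S T > 0` every
set `U ⊆ [x, 2x)` of at least `ρ (S T) x / (log x) ^ l` integers `q` for which all prime factors of all
`q r + 1` are `> x ^ κ` contains such a progression. -/
theorem result :
    (∀ T : Finset ℕ, (∀ r ∈ T, 1 ≤ r) → HasProd (fun p : Nat.Primes =>
      (1 - (w T p : ℝ) / ((p : ℕ) : ℝ)) / (1 - 1 / ((p : ℕ) : ℝ)) ^ T.card) (S T) ∧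
      (0 < S T ↔ ∀ p : ℕ, p.Prime → w T p < p)) ∧
    (∀ l : ℕ, ∃ κ : ℝ, 0 < κ ∧ ∀ m : ℕ, ∃ B x₀ : ℕ, ∀ x : ℕ, x₀ ≤ x →
      ∀ T : Finset ℕ, T.card = l → (∀ r ∈ T, 1 ≤ r) → 0 < S T →
      ∃ a d : ℕ, 1 ≤ d ∧ (d : ℝ) ≤ Real.log x ^ B ∧
        ∀ j < m, a + j * d ∈ Ico x (2 * x) ∧ Free T ((x : ℝ) ^ κ) (a + j * d) ∧
          ∀ C : ℕ, (∀ r ∈ T, r ≤ x ^ C) → ∀ r ∈ T,
            κ * (((a + j * d) * r + 1).primeFactorsList.length : ℝ) ≤ C + 2) ∧
    (∀ (l m : ℕ) (κ ρ : ℝ), 0 < κ → 0 < ρ → ∃ B x₀ : ℕ, ∀ x : ℕ, x₀ ≤ x →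
      ∀ T : Finset ℕ, T.card = l → (∀ r ∈ T, 1 ≤ r) → 0 < S T →
      ∀ U : Finset ℕ, U ⊆ Ico x (2 * x) → (∀ q ∈ U, Free T ((x : ℝ) ^ κ) q) →
      ρ * (S T * (x / Real.log x ^ l)) ≤ U.card →
      ∃ a d : ℕ, 1 ≤ d ∧ (d : ℝ) ≤ Real.log x ^ B ∧ ∀ j < m, a + j * d ∈ U) := by
  have hpos : ∀ T : Finset ℕ, (∀ r ∈ T, 1 ≤ r) → 0 < S T → ∀ p : ℕ, p.Prime → w T p < p := by
    intro T hr hT p hp
    have h := Pool.Agent.Y840.PT.adm_of_pos (Pool.Agent.W218.MU.prim_map hr)
      (by rw [Pool.Agent.W218.MU.SL_map]; exact hT) p hp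
    rw [Pool.Agent.W218.MU.w_map T hp] at h
    exact h
  refine ⟨fun T hr => ⟨Pool.Agent.W218.MU.SD_hasProd hr, hpos T hr, fun hT => ?_⟩, fun l => ?_,
    fun l m κ ρ hκ hρ => ?_⟩
  · obtain ⟨c, hc, h⟩ := Pool.Agent.Y840.PT.SL_ge T.card
    have h2 := h (T.map Pool.Agent.W218.MU.em) (Pool.Agent.W218.MU.prim_map hr) (by rw [card_map])
      (fun p hp => by
        rw [Pool.Agent.W218.MU.w_map T hp]; exact hT p hp)
    rw [Pool.Agent.W218.MU.SL_map] at h2
    exact lt_of_lt_of_le hc h2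
  · obtain ⟨κ, hκ, h⟩ := Pool.Agent.Y840.PT.alm l
    refine ⟨κ, hκ, fun m => ?_⟩
    obtain ⟨B, x₀, h2⟩ := h m
    refine ⟨B, max x₀ 2, fun x hx T hc hr hT => ?_⟩
    have hx2 : 2 ≤ x := (le_max_right _ _).trans hx
    obtain ⟨a, d, h3, h4, h5⟩ := h2 x (x - 1) ((le_max_left _ _).trans hx)
      (T.map Pool.Agent.W218.MU.em) (Pool.Agent.W218.MU.prim_map hr) (by rw [card_map, hc])
      (fun p hp => by
        rw [Pool.Agent.W218.MU.w_map T hp]; exact hpos T hr hT p hp)
    refine ⟨a, d, h3, h4, fun j hj => ?_⟩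
    have hmem := mem_Ioc.1 (h5 j hj).1
    have hfree : Free T ((x : ℝ) ^ κ) (a + j * d) := by
      intro r hrT p hp hd
      refine (h5 j hj).2 (Pool.Agent.W218.MU.em r) (mem_map_of_mem _ hrT) p hp ?_
      change p ∣ r * (a + j * d) + 1
      rwa [mul_comm]
    refine ⟨mem_Ico.2 ⟨by omega, by omega⟩, hfree, fun C hC r hrT => ?_⟩
    apply few_factors hx2 (by omega) _ (hfree r hrT)
    have h6 : a + j * d ≤ 2 * x - 1 := by omega
    have h7 : 1 ≤ x ^ C := Nat.one_le_pow _ _ (by omega)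
    calc (a + j * d) * r + 1 ≤ (2 * x - 1) * x ^ C + 1 := by
          gcongr
          exact hC r hrT
      _ ≤ 2 * x * x ^ C := by
          obtain ⟨y, hy⟩ : ∃ y, 2 * x = y + 1 := ⟨2 * x - 1, by omega⟩
          rw [hy, Nat.add_sub_cancel]
          nlinarith
      _ ≤ x * x * x ^ C := by gcongr
      _ = x ^ (C + 2) := by ring
  · obtain ⟨B, x₀, h⟩ := Pool.Agent.Y840.PT.dil_gen m l κ ρ hκ hρ
    exact ⟨B, x₀, fun x hx T hc hr hT U hU hfree hcard => h x hx T hc hr hT U hU hfree hcard⟩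

end Pool.Agent.Results.MP_d018b2_nt.UniformAlmostPrimes
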